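import Pool.Agent.H55.CG.Targets

/-!
# Copolymer, order of the gap (MP_65efe8_pr): row TLM, the tail
-/

set_option autoImplicit false

open MeasureTheory ProbabilityTheory Filter Topology
open Pool.Agent.H95 Pool.Agent.H95.Cop Pool.Agent.H55.CG

namespace Pool.Agent.H45.CG

theorem tailK_anti (K : PMF ℕ) : Antitone (tailK K) := by
  refine antitone_nat_of_succ_le ?_
  intro n
  rw [tailK_succ]
  linarith [kk_nonneg K n]

theorem kk_le_tailK (K : PMF ℕ) (n : ℕ) : kk K n ≤ tailK K n := by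
  have h := tailK_nonneg K (n + 1)
  rw [tailK_succ] at h
  linarith

theorem W_ge_tail (K : PMF ℕ) (hK0 : K 0 = 0) (N : ℕ) (x : ℕ → ℝ) : tailK K N / 2 ≤ W K N x := by
  rw [W_sum K hK0 N x]
  have h1 : 0 ≤ ∑ n ∈ Finset.range N, kk K n * ((1 + Real.exp (H x 0 n)) / 2) *
      W K (N - n) (shift n x) := by
    refine Finset.sum_nonneg fun n _ => ?_
    have h2 := kk_nonneg K n
    have h3 := W_pos K (N - n) (shift n x)
    have h4 := Real.exp_pos (H x 0 n)
    positivity
  have h2 := tailK_nonneg K N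
  have h3 := Real.exp_pos (H x 0 N)
  have h4 : tailK K N / 2 ≤ tailK K N * ((1 + Real.exp (H x 0 N)) / 2) := by
    have h5 : tailK K N * 1 ≤ tailK K N * (1 + Real.exp (H x 0 N)) :=
      mul_le_mul_of_nonneg_left (by linarith) h2
    linarith
  linarith

theorem pf_TLM : T_TLM := by
  intro K hK0 N N' hN
  exact ⟨tailK_anti K hN, kk_le_tailK K N, fun x c _ => W_ge_tail K hK0 (N - c) (shift c x)⟩

end Pool.Agent.H45.CG
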